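import Pool.Agent.Helper13.M.DefsC
import Pool.Agent.Helper5.HG.G3

/-!
# Project M, block G3M: the weights, with several options for every root
-/

set_option autoImplicit false

namespace Pool.Agent.HG

open Polynomial NumberField IsDedekindDomain
open scoped Pointwise IntermediateField

section mertens

variable {k : Type} [Field k] [NumberField k]

open scoped Classical in
/-- an upper bound for the primes of a set between `y` and `x` -/
theorem upperQ5 {B : ℕ → Finset (Pr k)} (hB : ∀ x v, v ∈ B x ↔ nm v ≤ x) (Q : Set (Pr k)) {δ C : ℝ}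
    (hC : ∀ x : ℕ, 2 ≤ x →
      |∑ v ∈ (B x).filter (· ∈ Q), (1 : ℝ) / nm v - δ * Real.log (Real.log x)| ≤ C)
    {y x : ℕ} (hy : 2 ≤ y) (hyx : y ≤ x) (S : Finset (Pr k))
    (hS : ∀ v ∈ S, v ∈ Q ∧ y < nm v ∧ nm v ≤ x) :
    ∑ v ∈ S, (1 : ℝ) / nm v ≤ δ * (Real.log (Real.log x) - Real.log (Real.log y)) + 2 * C := by
  have h1 := abs_le.1 (hC x (hy.trans hyx))
  have h2 := abs_le.1 (hC y hy)
  have h0 : ∀ v : Pr k, (0 : ℝ) ≤ 1 / nm v := fun v => by positivity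
  have hd : Disjoint S ((B y).filter (· ∈ Q)) := Finset.disjoint_left.2 fun v hv hv' => by
    rw [Finset.mem_filter, hB] at hv'
    have := (hS v hv).2.1
    omega
  have h3 : S ∪ (B y).filter (· ∈ Q) ⊆ (B x).filter (· ∈ Q) := by
    intro v hv
    rw [Finset.mem_filter, hB]
    rcases Finset.mem_union.1 hv with hv | hv
    · exact ⟨(hS v hv).2.2, (hS v hv).1⟩
    · rw [Finset.mem_filter, hB] at hv
      exact ⟨by omega, hv.2⟩
  have h4 := Finset.sum_le_sum_of_subset_of_nonneg h3 (fun v _ _ => h0 v)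
  rw [Finset.sum_union hd] at h4
  linarith [h1.2, h2.1]

end mertens

namespace Ctx

variable {k L : Type} [Field k] [NumberField k] [Field L] [NumberField L] [Algebra k L]
  [IsGalois k L] {f : k[X]} (X : Ctx k L f)

open scoped Classical in
theorem wjM_def5 (hm : 0 < X.m) (hfin : {v : Pr k | ¬ Gd X.M v}.Finite) (ι : Type)
    (Vι : Pr k → L → Finset ι) (g : Pr k → (Σ _ : L × ℤˣ, ι) → L → ℤˣ) (J : Finset (Fin X.m))
    (v : Pr k) :
    Pool.Agent.Helper99.HG.WJ (X.cdM hm hfin ι Vι g) J v =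
      ∑ o ∈ ((X.Fx v ×ˢ (Finset.univ : Finset ℤˣ)).sigma fun o => Vι v o.1).filter
        (fun o : (Σ _ : L × ℤˣ, ι) => X.cmp hm o.1.1 ∈ J),
        (1 / 2 : ℝ) ^ (∑ j ∈ J, (((X.R v).filter fun ρ => X.cmp hm ρ = j).erase o.1.1).card) := rfl

/-- the weight -/
theorem wjM5 (hm : 0 < X.m) (hfin : {v : Pr k | ¬ Gd X.M v}.Finite) (ι : Type)
    (Vι : Pr k → L → Finset ι) (g : Pr k → (Σ _ : L × ℤˣ, ι) → L → ℤˣ)
    (J : Finset (Fin X.m)) (v : Pr k) :
    Pool.Agent.Helper99.HG.WJ (X.cdM hm hfin ι Vι g) J v =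
      4 * (∑ t ∈ X.FJ5 hm J v, (Vι v t).card : ℕ) * (1 / 2 : ℝ) ^ (X.RJ5 hm J v).card := by
  classical
  have h3 : ((X.Fx v ×ˢ (Finset.univ : Finset ℤˣ)).sigma fun o => Vι v o.1).filter
        (fun o : (Σ _ : L × ℤˣ, ι) => X.cmp hm o.1.1 ∈ J) =
      (X.FJ5 hm J v ×ˢ (Finset.univ : Finset ℤˣ)).sigma fun o => Vι v o.1 := by
    ext o
    rw [Finset.mem_filter, Finset.mem_sigma, Finset.mem_sigma, Finset.mem_product,
      Finset.mem_product, mem_FJ5]
    unfold Fx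
    rw [Finset.mem_filter]
    simp only [Finset.mem_univ, and_true]
    tauto
  have h1 : ∀ o ∈ (X.FJ5 hm J v ×ˢ (Finset.univ : Finset ℤˣ)).sigma fun o => Vι v o.1,
      (1 / 2 : ℝ) ^ (∑ j ∈ J, (((X.R v).filter fun ρ => X.cmp hm ρ = j).erase o.1.1).card) =
        2 * (1 / 2 : ℝ) ^ (X.RJ5 hm J v).card := by
    intro o ho
    have h2 := (Finset.mem_product.1 (Finset.mem_sigma.1 ho).1).1
    have h3 : o.1.1 ∈ X.RJ5 hm J v := X.FJ_sub_RJ5 hm J v h2
    have h4 : ∑ j ∈ J, (((X.R v).filter fun ρ => X.cmp hm ρ = j).erase o.1.1).card =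
        ((X.RJ5 hm J v).erase o.1.1).card := by
      rw [Finset.card_eq_sum_card_fiberwise (f := X.cmp hm) (t := J)]
      · refine Finset.sum_congr rfl fun j hj => ?_
        congr 1
        ext ρ
        rw [Finset.mem_erase, Finset.mem_filter, Finset.mem_filter, Finset.mem_erase, mem_RJ5]
        constructor
        · rintro ⟨a1, a2, a3⟩
          exact ⟨⟨a1, a2, by rw [a3]; exact hj⟩, a3⟩
        · rintro ⟨⟨a1, a2, _⟩, a3⟩
          exact ⟨a1, a2, a3⟩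
      · intro ρ hρ
        have h5 := Finset.mem_of_mem_erase hρ
        exact ((X.mem_RJ5 hm J v ρ).1 h5).2
    rw [h4]
    have h5 := Finset.card_erase_add_one h3
    rw [← h5, pow_succ]
    ring
  have hu : (Finset.univ : Finset ℤˣ).card = 2 := rfl
  rw [X.wjM_def5]
  rw [h3, Finset.sum_congr rfl h1, Finset.sum_const, Finset.card_sigma, Finset.sum_product]
  simp only [Finset.sum_const, hu, smul_eq_mul, nsmul_eq_mul]
  rw [← Finset.mul_sum]
  push_cast
  ring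

/-- the weight of the problem with one option for every root -/
theorem wjM_le5 (hm : 0 < X.m) (hfin : {v : Pr k | ¬ Gd X.M v}.Finite) (ι : Type)
    (Vι : Pr k → L → Finset ι) (g : Pr k → (Σ _ : L × ℤˣ, ι) → L → ℤˣ)
    (g' : Pr k → L × ℤˣ → L → ℤˣ)
    (J : Finset (Fin X.m)) (v : Pr k) (c : ℕ) (hc : ∀ t, (Vι v t).card ≤ c) :
    Pool.Agent.Helper99.HG.WJ (X.cdM hm hfin ι Vι g) J v ≤
      c * Pool.Agent.Helper99.HG.WJ (X.cd hm hfin g') J v := by
  rw [X.wjM5, X.wj5]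
  have h1 : ∑ t ∈ X.FJ5 hm J v, (Vι v t).card ≤ c * (X.FJ5 hm J v).card := by
    refine (Finset.sum_le_card_nsmul _ _ c fun t _ => hc t).trans (le_of_eq ?_)
    rw [smul_eq_mul, mul_comm]
  have h2 : ((∑ t ∈ X.FJ5 hm J v, (Vι v t).card : ℕ) : ℝ) ≤ c * (X.FJ5 hm J v).card := by
    exact_mod_cast h1
  have h3 : (0 : ℝ) ≤ (1 / 2 : ℝ) ^ (X.RJ5 hm J v).card := by positivity
  calc 4 * ((∑ t ∈ X.FJ5 hm J v, (Vι v t).card : ℕ) : ℝ) * (1 / 2 : ℝ) ^ (X.RJ5 hm J v).card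
      ≤ 4 * (c * (X.FJ5 hm J v).card) * (1 / 2 : ℝ) ^ (X.RJ5 hm J v).card := by
        refine mul_le_mul_of_nonneg_right ?_ h3
        linarith
    _ = _ := by ring

open Pool.Agent.Helper99.HG in
/-- few roots: the primes without fixed roots have positive density -/
theorem taM5 (hDer : StmtDer) (hm : 0 < X.m) (hfin : {v : Pr k | ¬ Gd X.M v}.Finite) (ι : Type)
    (Vι : Pr k → L → Finset ι) (g : Pr k → (Σ _ : L × ℤˣ, ι) → L → ℤˣ)
    (J : Finset (Fin X.m)) (h4 : (X.ΩJ5 hm J).card ≤ 4)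
    (hnr : ∀ θ ∈ X.ΩJ5 hm J, ∀ a : k, θ ≠ algebraMap k L a) :
    TA (X.cdM hm hfin ι Vι g) J := by
  classical
  obtain ⟨δ, C, hδ, h⟩ := X.ta5 hDer hm hfin (fun _ _ _ => 1) J h4 hnr
  refine ⟨δ, C, hδ, fun y x hy hyx (S : Finset (Pr k)) hS => ?_⟩
  -- the primes of the problem with one option for every root
  have hfin' : {v : Pr k | v ∉ hfin.toFinset ∧ y < nm v ∧ nm v ≤ x ∧
      ∀ o ∈ X.Fx v ×ˢ (Finset.univ : Finset ℤˣ), X.cmp hm o.1 ∉ J}.Finite := by
    obtain ⟨B, hB⟩ := exists_B5 k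
    refine (B x).finite_toSet.subset fun v hv => ?_
    rw [Finset.mem_coe, hB]
    exact hv.2.2.1
  have h1 := h y x hy hyx hfin'.toFinset fun v => hfin'.mem_toFinset
  have h2 : hfin'.toFinset ⊆ S := by
    intro v hv
    have hv' := hfin'.mem_toFinset.1 hv
    refine (hS v).2 ⟨hv'.1, hv'.2.1, hv'.2.2.1, fun o ho => ?_⟩
    have ho' : o ∈ (X.Fx v ×ˢ (Finset.univ : Finset ℤˣ)).sigma fun o => Vι v o.1 := ho
    exact hv'.2.2.2 o.1 (Finset.mem_sigma.1 ho').1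
  have h3 := Finset.sum_le_sum_of_subset_of_nonneg h2
    (f := fun v : Pr k => (1 : ℝ) / nm v) fun v _ _ => by positivity
  exact h1.trans h3

open Pool.Agent.Helper99.HG in
/-- many roots: the weights are less than `1` in the mean -/
theorem tbM5 (hMe : StmtMert) (K : ℕ) {δs Cs : ℝ} {Qs : Set (Pr k)} (hδs : 0 < δs)
    (hQs : ∀ v ∈ Qs, ∀ P : Pr L, P.asIdeal.comap (algebraMap (𝓞 k) (𝓞 L)) = v.asIdeal →
        ∀ z : 𝓞 L, z ^ nm v - z ∈ P.asIdeal)
    {B₀ : ℕ → Finset (Pr k)} (hB₀ : ∀ x v, v ∈ B₀ x ↔ nm v ≤ x)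
    (hCs : ∀ x : ℕ, 2 ≤ x → |(open scoped Classical in
      ∑ v ∈ (B₀ x).filter (· ∈ Qs), (1 : ℝ) / nm v) - δs * Real.log (Real.log x)| ≤ Cs)
    (hm : 0 < X.m)
    (hfin : {v : Pr k | ¬ Gd X.M v}.Finite) (ι : Type)
    (Vι : Pr k → L → Finset ι) (g : Pr k → (Σ _ : L × ℤˣ, ι) → L → ℤˣ)
    (hK : ∀ v t, (Vι v t).card ≤ K) (Q : Set (Pr k))
    (hQ : ∀ v ∉ Q, Gd X.M v → ∀ t, (Vι v t).card ≤ 1)
    {B : ℕ → Finset (Pr k)} (hB : ∀ x v, v ∈ B x ↔ nm v ≤ x) {δ C : ℝ}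
    (hδ : δ ≤ 3 / 16 * δs / (K + 3 / 8))
    (hC : ∀ x : ℕ, 2 ≤ x → |(open scoped Classical in
      ∑ v ∈ (B x).filter (· ∈ Q), (1 : ℝ) / nm v) - δ * Real.log (Real.log x)| ≤ C)
    (J : Finset (Fin X.m)) (h5 : 5 ≤ (X.ΩJ5 hm J).card) :
    TB (X.cdM hm hfin ι Vι g) J := by
  classical
  obtain ⟨_, C₂, h2⟩ := hMe k B hB
  have hKpos : (0 : ℝ) < K + 3 / 8 := by positivity
  refine ⟨?_, 3 / 16 * δs, 2 * C₂ + 3 / 8 * (2 * Cs + ∑ v ∈ hfin.toFinset, (1 : ℝ) / nm v) +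
    (K + 3 / 8) * (2 * C), by positivity, fun y x hy hyx (S : Finset (Pr k)) hS => ?_⟩
  · obtain ⟨θ, hθ⟩ := Finset.card_pos.1 (show 0 < (X.ΩJ5 hm J).card by omega)
    rw [mem_ΩJ5] at hθ
    exact ⟨_, hθ.2⟩
  · have hS' : ∀ v, v ∈ S ↔ v ∉ hfin.toFinset ∧ y < nm v ∧ nm v ≤ x := hS
    have hLL : Real.log (Real.log y) ≤ Real.log (Real.log x) :=
      Real.log_le_log (Real.log_pos (by exact_mod_cast (by omega : 1 < y)))
        (Real.log_le_log (by exact_mod_cast (by omega : 0 < y)) (by exact_mod_cast hyx))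
    have e1 := upper5 hB h2 hy hyx S fun v hv => ((hS' v).1 hv).2
    have e2 := diff5 hB₀ Qs (by convert hCs) hfin.toFinset hy hyx (S.filter (· ∈ Qs))
      fun v hvQ h1 h2 h3 => by
        rw [Finset.mem_filter, hS']
        exact ⟨⟨h3, h1, h2⟩, hvQ⟩
    have e2' := upperQ5 hB Q (by convert hC) hy hyx (S.filter (· ∈ Q))
      fun v hv => by
        rw [Finset.mem_filter, hS'] at hv
        exact ⟨hv.2, hv.1.2⟩
    have e3 : ∀ v ∈ S, WJ (X.cdM hm hfin ι Vι g) J v / nm v ≤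
        1 / nm v - 3 / 8 * (if v ∈ Qs then (1 : ℝ) / nm v else 0) +
          (K + 3 / 8) * (if v ∈ Q then (1 : ℝ) / nm v else 0) := by
      intro v hv
      have hpos : (0 : ℝ) < nm v := by
        have := (card_quot5 v).2
        exact_mod_cast (by omega : 0 < nm v)
      have hgd : Gd X.M v := by
        by_contra h8
        exact ((hS' v).1 hv).1 (hfin.mem_toFinset.2 h8)
      have hw1 := X.wj_le5 hm hfin (fun _ _ _ => 1) J h5 v
      have hw0 := X.wj_nonneg5 hm hfin (fun _ _ _ => 1) J v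
      have hws : v ∈ Qs → WJ (X.cd hm hfin (fun _ _ _ => 1)) J v ≤ 5 / 8 := fun h =>
        X.wj_le_split5 hm hfin (fun _ _ _ => 1) J h5 v fun θ hθ =>
          X.fix_split5 hgd (hQs v h (X.P v) (X.comap v)) hθ
      have key : WJ (X.cdM hm hfin ι Vι g) J v ≤
          1 - 3 / 8 * (if v ∈ Qs then (1 : ℝ) else 0) +
            (K + 3 / 8) * (if v ∈ Q then (1 : ℝ) else 0) := by
        by_cases hvQ : v ∈ Q
        · have h6 := X.wjM_le5 hm hfin ι Vι g (fun _ _ _ => 1) J v K (hK v)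
          have h7 : (K : ℝ) * WJ (X.cd hm hfin (fun _ _ _ => 1)) J v ≤ K * 1 :=
            mul_le_mul_of_nonneg_left hw1 (Nat.cast_nonneg K)
          rw [if_pos hvQ]
          have h8 : (if v ∈ Qs then (1 : ℝ) else 0) ≤ 1 := by split_ifs <;> norm_num
          linarith
        · have h6 := X.wjM_le5 hm hfin ι Vι g (fun _ _ _ => 1) J v 1 (hQ v hvQ hgd)
          rw [Nat.cast_one, one_mul] at h6
          rw [if_neg hvQ, mul_zero, add_zero]
          split_ifs with h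
          · have := hws h
            linarith
          · linarith
      have h9 := div_le_div_of_nonneg_right key hpos.le
      refine h9.trans (le_of_eq ?_)
      split_ifs <;> ring
    have e4 : ∑ v ∈ S, WJ (X.cdM hm hfin ι Vι g) J v / nm v ≤
        ∑ v ∈ S, (1 : ℝ) / nm v - 3 / 8 * ∑ v ∈ S.filter (· ∈ Qs), (1 : ℝ) / nm v +
          (K + 3 / 8) * ∑ v ∈ S.filter (· ∈ Q), (1 : ℝ) / nm v := by
      refine (Finset.sum_le_sum e3).trans (le_of_eq ?_)
      rw [Finset.sum_add_distrib, Finset.sum_sub_distrib, ← Finset.mul_sum, ← Finset.mul_sum,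
        Finset.sum_filter, Finset.sum_filter]
    have e5 : (K + 3 / 8 : ℝ) * (δ * (Real.log (Real.log x) - Real.log (Real.log y))) ≤
        3 / 16 * δs * (Real.log (Real.log x) - Real.log (Real.log y)) := by
      rw [← mul_assoc]
      refine mul_le_mul_of_nonneg_right ?_ (by linarith)
      rw [le_div_iff₀ hKpos] at hδ
      linarith
    have e6 : (K + 3 / 8 : ℝ) * ∑ v ∈ S.filter (· ∈ Q), (1 : ℝ) / nm v ≤
        (K + 3 / 8) * (δ * (Real.log (Real.log x) - Real.log (Real.log y)) + 2 * C) :=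
      mul_le_mul_of_nonneg_left e2' hKpos.le
    change ∑ v ∈ S, WJ (X.cdM hm hfin ι Vι g) J v / nm v ≤ _
    rw [mul_add] at e6
    linarith

end Ctx

/-- **BLOCK G3M**: the weights, with multiplicities -/
theorem g3M : StmtG3M := by
  intro hMe hSp hDer k L _ _ _ _ _ _ f hroot K
  obtain ⟨B₀, hB₀⟩ := exists_B5 k
  obtain ⟨δs, Cs, Qs, hδs, hQs, hCs⟩ := hSp k L B₀ hB₀
  have hKpos : (0 : ℝ) < K + 3 / 8 := by positivity
  refine ⟨3 / 16 * δs / (K + 3 / 8), by positivity, fun X hm hfin ι Vι g hK Q hQ B hB δ C hδ hC =>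
    ⟨sys5 hMe k, ⟨X.Ω.card * 2 * K, fun p => ?_⟩, fun J => ?_⟩⟩
  · classical
    change ((X.Fx p ×ˢ (Finset.univ : Finset ℤˣ)).sigma fun o => Vι p o.1).card ≤ _
    have hu : (Finset.univ : Finset ℤˣ).card = 2 := rfl
    rw [Finset.card_sigma]
    refine (Finset.sum_le_card_nsmul _ _ K fun o _ => hK p o.1).trans ?_
    rw [smul_eq_mul, Finset.card_product, hu]
    refine Nat.mul_le_mul_right K (Nat.mul_le_mul_right 2 ?_)
    unfold Ctx.Fx
    exact Finset.card_filter_le _ _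
  · rcases Nat.lt_or_ge (X.ΩJ5 hm J).card 5 with h | h
    · refine Or.inl (X.taM5 hDer hm hfin ι Vι g J (by omega) ?_)
      rintro θ hθ a rfl
      rw [Ctx.mem_ΩJ5, Ctx.mem_Ω, mem_rootSet] at hθ
      have h1 := hθ.1.2
      rw [aeval_algebraMap_apply, map_eq_zero] at h1
      exact hroot a (by rw [← h1]; rfl)
    · refine Or.inr (X.tbM5 (Cs := Cs) (C := C) hMe K hδs hQs hB₀ ?_ hm hfin ι Vι g hK Q hQ hB hδ
        ?_ J h)
      · intro x hx
        convert hCs x hx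
      · intro x hx
        convert hC x hx

end Pool.Agent.HG
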