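import Pool.Agent.Helper13.M.Defs

/-!
# Project M, block FB: a finite set with Galois action is the set of roots of a polynomial
-/

set_option autoImplicit false

namespace Pool.Agent.M

open Polynomial

section fb5

variable {k E : Type} [Field k] [CharZero k] [Field E] [IsAlgClosed E] [Algebra k E]
    [Algebra.IsAlgebraic k E] {B : Type} [MulAction (E ≃ₐ[k] E) B]

theorem galois5 : IsGalois k E := by
  haveI : IsAlgClosure k E := ⟨inferInstance, inferInstance⟩
  haveI : Normal k E := IsAlgClosure.normal k E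
  exact ⟨⟩

/-- equivariant maps with given value at a point -/
theorem eqv5 (b : B) (α : E) (hα : ∀ g : E ≃ₐ[k] E, g • b = b → g α = α) :
    ∃ θ : B → E, (∀ (g : E ≃ₐ[k] E) (c : B), g (θ c) = θ (g • c)) ∧
      (∀ g : E ≃ₐ[k] E, θ (g • b) = g α) ∧
      ∀ c, (¬ ∃ g : E ≃ₐ[k] E, g • b = c) → θ c = 0 := by
  classical
  let θ : B → E := fun c => if h : ∃ g : E ≃ₐ[k] E, g • b = c then h.choose α else 0
  have h1 : ∀ g : E ≃ₐ[k] E, θ (g • b) = g α := by
    intro g
    have h : ∃ g' : E ≃ₐ[k] E, g' • b = g • b := ⟨g, rfl⟩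
    have e : θ (g • b) = h.choose α := dif_pos h
    rw [e]
    have h2 := h.choose_spec
    have h3 : (g⁻¹ * h.choose) • b = b := by rw [mul_smul, h2, inv_smul_smul]
    have h4 := hα _ h3
    rw [AlgEquiv.mul_apply] at h4
    have h5 : g (g⁻¹ (h.choose α)) = h.choose α := by
      rw [← AlgEquiv.mul_apply, mul_inv_cancel, AlgEquiv.one_apply]
    rw [← h5, h4]
  have h2 : ∀ c, (¬ ∃ g : E ≃ₐ[k] E, g • b = c) → θ c = 0 := fun c hc => dif_neg hc
  refine ⟨θ, fun g c => ?_, h1, h2⟩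
  by_cases hc : ∃ g : E ≃ₐ[k] E, g • b = c
  · obtain ⟨g', rfl⟩ := hc
    rw [h1, ← mul_smul, h1, AlgEquiv.mul_apply]
  · have hc' : ¬ ∃ g' : E ≃ₐ[k] E, g' • b = g • c := by
      rintro ⟨g', hg'⟩
      exact hc ⟨g⁻¹ * g', by rw [mul_smul, hg', inv_smul_smul]⟩
    rw [h2 c hc, h2 _ hc', map_zero]

/-- equivariant maps separate points -/
theorem sep5 (hB : ∀ b : B, ∃ L : IntermediateField k E, FiniteDimensional k L ∧
      ∀ g : E ≃ₐ[k] E, (∀ x ∈ L, g x = x) → g • b = b) (b b' : B) (hbb : b ≠ b') :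
    ∃ θ : B → E, (∀ (g : E ≃ₐ[k] E) (c : B), g (θ c) = θ (g • c)) ∧ θ b ≠ θ b' := by
  haveI : IsGalois k E := galois5
  obtain ⟨L, hL, hLb⟩ := hB b
  let H : Subgroup (E ≃ₐ[k] E) := MulAction.stabilizer (E ≃ₐ[k] E) b
  have hHo : IsOpen (H : Set (E ≃ₐ[k] E)) := by
    haveI := hL
    refine Subgroup.isOpen_mono (H₁ := L.fixingSubgroup) ?_ L.fixingSubgroup_isOpen
    intro g hg
    exact hLb g fun x hx => (IntermediateField.mem_fixingSubgroup_iff L g).1 hg x hx
  have key := InfiniteGalois.fixingSubgroup_fixedField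
    (⟨H, H.isClosed_of_isOpen hHo⟩ : ClosedSubgroup (E ≃ₐ[k] E))
  by_cases hc : ∃ g : E ≃ₐ[k] E, g • b = b'
  · obtain ⟨g, rfl⟩ := hc
    have hg : g ∉ H := fun h => hbb (MulAction.mem_stabilizer_iff.1 h).symm
    have hg' : g ∉ (IntermediateField.fixedField H).fixingSubgroup := by
      intro h
      apply hg
      have : (IntermediateField.fixedField H).fixingSubgroup = H := key
      rwa [this] at h
    rw [IntermediateField.mem_fixingSubgroup_iff] at hg'
    push Not at hg'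
    obtain ⟨α, hα, hα'⟩ := hg'
    obtain ⟨θ, h1, h2, -⟩ := eqv5 b α fun τ hτ => by
      rw [IntermediateField.mem_fixedField_iff] at hα
      exact hα τ hτ
    refine ⟨θ, h1, ?_⟩
    have h3 := h2 1
    rw [one_smul, AlgEquiv.one_apply] at h3
    rw [h3, h2]
    exact fun h => hα' h.symm
  · obtain ⟨θ, h1, h2, h3⟩ := eqv5 (k := k) b (1 : E) fun τ _ => map_one τ
    refine ⟨θ, h1, ?_⟩
    have h4 := h2 1
    rw [one_smul, map_one] at h4
    rw [h4, h3 b' hc]
    exact one_ne_zero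

/-- the equivariant maps -/
def EqV5 (k E B : Type) [Field k] [Field E] [Algebra k E] [MulAction (E ≃ₐ[k] E) B] :
    Submodule k (B → E) where
  carrier := {θ | ∀ (g : E ≃ₐ[k] E) (b : B), g (θ b) = θ (g • b)}
  add_mem' := fun h1 h2 g b => by
    rw [Pi.add_apply, Pi.add_apply, map_add, h1 g b, h2 g b]
  zero_mem' := fun g b => by
    rw [Pi.zero_apply, Pi.zero_apply, map_zero]
  smul_mem' := fun a θ h g b => by
    rw [Pi.smul_apply, Pi.smul_apply, map_smul, h g b]

/-- an injective equivariant map -/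
theorem inj5 [Finite B] (hB : ∀ b : B, ∃ L : IntermediateField k E, FiniteDimensional k L ∧
      ∀ g : E ≃ₐ[k] E, (∀ x ∈ L, g x = x) → g • b = b) :
    ∃ θ : B → E, (∀ (g : E ≃ₐ[k] E) (c : B), g (θ c) = θ (g • c)) ∧ Function.Injective θ := by
  by_contra hno
  push Not at hno
  let p : {x : B × B // x.1 ≠ x.2} → Subspace k (EqV5 k E B) := fun x =>
    { carrier := {θ | (θ : B → E) x.1.1 = (θ : B → E) x.1.2}
      add_mem' := fun {θ θ'} h1 h2 => by
        change (θ : B → E) x.1.1 + (θ' : B → E) x.1.1 = (θ : B → E) x.1.2 + (θ' : B → E) x.1.2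
        rw [show (θ : B → E) x.1.1 = (θ : B → E) x.1.2 from h1,
          show (θ' : B → E) x.1.1 = (θ' : B → E) x.1.2 from h2]
      zero_mem' := rfl
      smul_mem' := fun a θ h1 => by
        change a • (θ : B → E) x.1.1 = a • (θ : B → E) x.1.2
        rw [show (θ : B → E) x.1.1 = (θ : B → E) x.1.2 from h1] }
  have hcov : (⋃ x, (p x : Set (EqV5 k E B))) = Set.univ := by
    rw [Set.eq_univ_iff_forall]
    intro θ
    have h1 := hno (θ : B → E) θ.2
    rw [Function.Injective] at h1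
    push Not at h1
    obtain ⟨b, b', h2, h3⟩ := h1
    exact Set.mem_iUnion.2 ⟨⟨(b, b'), h3⟩, h2⟩
  obtain ⟨x, hx⟩ := Subspace.exists_eq_top_of_iUnion_eq_univ hcov
  obtain ⟨θ, h1, h2⟩ := sep5 hB x.1.1 x.1.2 x.2
  have h3 : (⟨θ, h1⟩ : EqV5 k E B) ∈ p x := by
    rw [hx]
    exact Submodule.mem_top
  exact h2 h3

end fb5

/-- **BLOCK FB** -/
theorem fb : StmtFB := by
  intro k E _ _ _ _ _ _ B _ _ hB
  classical
  haveI : IsGalois k E := galois5
  haveI := Fintype.ofFinite B
  obtain ⟨θ, h1, h2⟩ := inj5 hB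
  have hfix : ∀ g : E ≃ₐ[k] E, (∏ b : B, (X - C (θ b))).map (g : E →+* E) =
      ∏ b : B, (X - C (θ b)) := by
    intro g
    rw [Polynomial.map_prod]
    have e : ∀ b : B, (X - C (θ b)).map (g : E →+* E) = X - C (θ (g • b)) := by
      intro b
      rw [Polynomial.map_sub, Polynomial.map_X, Polynomial.map_C]
      congr 2
      exact h1 g b
    rw [Finset.prod_congr rfl fun b _ => e b]
    exact Equiv.prod_comp (MulAction.toPerm g : Equiv.Perm B) fun b => X - C (θ b)
  have hl : (∏ b : B, (X - C (θ b))) ∈ Polynomial.lifts (algebraMap k E) := by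
    rw [Polynomial.lifts_iff_coeff_lifts]
    intro n
    rw [InfiniteGalois.mem_range_algebraMap_iff_fixed]
    intro g
    have h3 := congrArg (fun q => q.coeff n) (hfix g)
    simp only [Polynomial.coeff_map] at h3
    exact h3
  have hmon : (∏ b : B, (X - C (θ b))).Monic := monic_prod_X_sub_C θ Finset.univ
  obtain ⟨f, hf, hfd, -⟩ := Polynomial.lifts_and_natDegree_eq_and_monic hl hmon
  refine ⟨f, θ, ?_, ?_, h2, fun x => ?_, h1⟩
  · rw [← Polynomial.separable_map (algebraMap k E), hf]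
    exact Polynomial.separable_prod_X_sub_C_iff.2 h2
  · rw [hfd, natDegree_prod_of_monic _ _ fun b _ => monic_X_sub_C (θ b)]
    simp only [natDegree_X_sub_C, Finset.sum_const, smul_eq_mul, mul_one]
    rw [Nat.card_eq_fintype_card]
    rfl
  · rw [aeval_def, ← eval_map, hf, eval_prod, Finset.prod_eq_zero_iff]
    constructor
    · rintro ⟨b, -, hb⟩
      rw [eval_sub, eval_X, eval_C] at hb
      exact ⟨b, (sub_eq_zero.1 hb).symm⟩
    · rintro ⟨b, rfl⟩
      exact ⟨b, Finset.mem_univ b, by rw [eval_sub, eval_X, eval_C, sub_self]⟩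

end Pool.Agent.M
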